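import Pool.Agent.WLR.Core

set_option autoImplicit false

namespace Pool.WLR

open MeasureTheory

theorem psi_nonneg {w : ℝ} (hw : w ≤ 1) : 0 ≤ psi w := by
  unfold psi
  exact le_min (by norm_num) (by linarith)

theorem psi_le_one (w : ℝ) : psi w ≤ 1 := min_le_left _ _

theorem phi_nonneg {w : ℝ} (hw : 0 ≤ w) : 0 ≤ phi w := by
  unfold phi
  exact le_min (by norm_num) (by linarith)

/-- The total charge of an event is large. -/
theorem charge_total (u w δ Z e : ℝ) (hu0 : 0 < u) (hu1 : u ≤ 1) (hw0 : 0 < w) (hw1 : w ≤ 1)
    (hδ : 0 < δ) (hZ0 : 0 < Z) (hZ1 : Z < 2 * δ) :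
    phi u * (2 * δ / u) ≤
      (if Z < δ then (3 : ℝ) else 2) *
        max (min e (e - (Z - δ) / w) - max (e - 2 * δ / u) (e - (Z + δ) / w)) 0
      + psi w * max (e - max (e - 2 * δ / u) (e - (Z - δ) / w)) 0 := by
  have hp : 2 * δ ≤ 2 * δ / u := by
    rw [le_div_iff₀ hu0]
    nlinarith
  have hpw : 2 * δ ≤ 2 * δ / w := by
    rw [le_div_iff₀ hw0]
    nlinarith
  have hphi : phi u * (2 * δ / u) ≤ 3 * δ := by
    have h1 : phi u ≤ 3 * u / 2 := min_le_right _ _
    calc phi u * (2 * δ / u) ≤ (3 * u / 2) * (2 * δ / u) := by
          apply mul_le_mul_of_nonneg_right h1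
          linarith
      _ = 3 * δ := by field_simp
  have hphi' : phi u * (2 * δ / u) ≤ 2 * δ / u := by
    have h1 : phi u ≤ 1 := min_le_left _ _
    calc phi u * (2 * δ / u) ≤ 1 * (2 * δ / u) := by
          apply mul_le_mul_of_nonneg_right h1
          linarith
      _ = 2 * δ / u := one_mul _
  have hsec : 0 ≤ psi w * max (e - max (e - 2 * δ / u) (e - (Z - δ) / w)) 0 :=
    mul_nonneg (psi_nonneg hw1) (le_max_right _ _)
  split_ifs with hZ
  · -- the partner is still present
    have h1 : min e (e - (Z - δ) / w) = e := by
      apply min_eq_left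
      have : (Z - δ) / w ≤ 0 := div_nonpos_of_nonpos_of_nonneg (by linarith) hw0.le
      linarith
    have h2 : max (e - 2 * δ / u) (e - (Z + δ) / w) ≤ e - δ := by
      apply max_le
      · linarith
      · have : δ ≤ (Z + δ) / w := by
          rw [le_div_iff₀ hw0]
          nlinarith
        linarith
    have h3 : δ ≤ max (min e (e - (Z - δ) / w)
        - max (e - 2 * δ / u) (e - (Z + δ) / w)) 0 := by
      apply le_max_of_le_left
      rw [h1]
      linarith
    linarith
  · push Not at hZ
    set q := (Z - δ) / w with hq
    have hq0 : 0 ≤ q := div_nonneg (by linarith) hw0.le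
    have hqw : q * w = Z - δ := by rw [hq]; field_simp
    have hqw' : q * w < δ := by linarith
    have hl : (Z + δ) / w = q + 2 * δ / w := by rw [hq]; field_simp; ring
    set p := 2 * δ / u with hpdef
    have hpu : p * u = 2 * δ := by rw [hpdef]; field_simp
    set s := 2 * δ / w with hsdef
    have h1 : min e (e - q) = e - q := min_eq_right (by linarith)
    rw [h1, hl]
    rcases le_total p q with hpq | hpq
    · -- the partner left before the window opened
      have hwu : w < 1 / 2 := by
        by_contra hcon
        push Not at hcon
        have : δ ≤ p * (1 / 2) := by linarith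
        nlinarith
      have hpsi : psi w = 1 := by
        unfold psi
        exact min_eq_left (by linarith)
      have h2 : max (e - p) (e - q) = e - p := max_eq_left (by linarith)
      rw [hpsi, h2]
      have h3 : p ≤ max (e - (e - p)) 0 := by
        apply le_max_of_le_left; linarith
      have h4 : 0 ≤ max (e - q - max (e - p) (e - (q + s))) 0 := le_max_right _ _
      linarith
    · have h2 : max (e - p) (e - q) = e - q := max_eq_right (by linarith)
      rw [h2]
      have h3 : q ≤ max (e - (e - q)) 0 := by
        apply le_max_of_le_left; linarith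
      have h3' : psi w * q ≤ psi w * max (e - (e - q)) 0 :=
        mul_le_mul_of_nonneg_left h3 (psi_nonneg hw1)
      rcases le_total (p - q) s with hs | hs
      · have h4 : max (e - p) (e - (q + s)) = e - p := max_eq_left (by linarith)
        rw [h4]
        have h5 : p - q ≤ max (e - q - (e - p)) 0 := by
          apply le_max_of_le_left; linarith
        have h6 : p ≤ 2 * (p - q) + psi w * q := by
          have h7 : q ≤ p - (1 - psi w) * q := by
            unfold psi
            rcases min_cases (1 : ℝ) (2 - 2 * w) with ⟨h, _⟩ | ⟨h, _⟩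
            · rw [h]; linarith
            · rw [h]
              have : q + (1 - (2 - 2 * w)) * q = 2 * (q * w) := by ring
              nlinarith
          linarith
        linarith
      · have h4 : max (e - p) (e - (q + s)) = e - (q + s) := max_eq_right (by linarith)
        rw [h4]
        have h5 : s ≤ max (e - q - (e - (q + s))) 0 := by
          apply le_max_of_le_left; linarith
        have h8 : 0 ≤ psi w * q := mul_nonneg (psi_nonneg hw1) hq0
        linarith

end Pool.WLR
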