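import Mathlib

set_option autoImplicit false

namespace Pool.WLR

open MeasureTheory

/-- First weight: the minimum of `1` and `3x/2`. -/
noncomputable def phi (x : ℝ) : ℝ := min 1 (3 * x / 2)

/-- Second weight: the minimum of `1` and `2 - 2x`. -/
noncomputable def psi (x : ℝ) : ℝ := min 1 (2 - 2 * x)

/-- Times `t` at which `t * w` is in `[a, b]` modulo the integers. -/
def X (w a b : ℝ) : Set ℝ := {t | ∃ k : ℤ, a ≤ t * w - k ∧ t * w - k ≤ b}

theorem measurableSet_X (w a b : ℝ) : MeasurableSet (X w a b) := by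
  have : X w a b = ⋃ k : ℤ, ({t : ℝ | a ≤ t * w - k} ∩ {t : ℝ | t * w - k ≤ b}) := by
    ext t; simp [X]
  rw [this]
  refine MeasurableSet.iUnion fun k => MeasurableSet.inter ?_ ?_
  · exact measurableSet_le measurable_const (by fun_prop)
  · exact measurableSet_le (by fun_prop) measurable_const

theorem vol_bound (w a b T : ℝ) (hw : 0 < w) (hab : a ≤ b) (hT : 0 ≤ T) :
    (volume.restrict (Set.Icc 0 T)).real (X w a b) ≤ (b - a) * T + (b - a) * (b - a + 1) / w := by
  rw [measureReal_restrict_apply (measurableSet_X w a b)]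
  have hsub : X w a b ∩ Set.Icc 0 T ⊆
      ⋃ k ∈ Finset.Icc ⌈-b⌉ ⌊w * T - a⌋, Set.Icc (((k : ℤ) + a) / w) ((k + b) / w) := by
    rintro t ⟨⟨k, h1, h2⟩, ht0, htT⟩
    simp only [Set.mem_iUnion, Finset.mem_Icc, Set.mem_Icc, exists_prop]
    refine ⟨k, ⟨?_, ?_⟩, ?_, ?_⟩
    · rw [Int.ceil_le]
      have : 0 ≤ t * w := mul_nonneg ht0 hw.le
      linarith
    · rw [Int.le_floor]
      have : t * w ≤ T * w := mul_le_mul_of_nonneg_right htT hw.le
      linarith
    · rw [div_le_iff₀ hw]; linarith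
    · rw [le_div_iff₀ hw]; linarith
  have hfin : volume (⋃ k ∈ Finset.Icc ⌈-b⌉ ⌊w * T - a⌋,
      Set.Icc (((k : ℤ) + a) / w) ((k + b) / w)) ≠ ⊤ := by
    refine ((measure_biUnion_lt_top (Finset.finite_toSet _) ?_)).ne
    intro k _
    exact measure_Icc_lt_top
  refine (measureReal_mono hsub hfin).trans ?_
  refine (measureReal_biUnion_finset_le _ _).trans ?_
  have h1 : ∀ k ∈ Finset.Icc ⌈-b⌉ ⌊w * T - a⌋,
      volume.real (Set.Icc (((k : ℤ) + a) / w) ((k + b) / w)) = (b - a) / w := by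
    intro k _
    rw [Real.volume_real_Icc_of_le]
    · ring
    · apply div_le_div_of_nonneg_right _ hw.le
      linarith
  rw [Finset.sum_congr rfl h1, Finset.sum_const, Int.card_Icc, nsmul_eq_mul]
  have hcard : (((⌊w * T - a⌋ + 1 - ⌈-b⌉).toNat : ℕ) : ℝ) ≤ w * T + (b - a) + 1 := by
    rcases le_total 0 (⌊w * T - a⌋ + 1 - ⌈-b⌉) with h | h
    · have h2 : (((⌊w * T - a⌋ + 1 - ⌈-b⌉).toNat : ℕ) : ℝ)
          = ((⌊w * T - a⌋ + 1 - ⌈-b⌉ : ℤ) : ℝ) := by
        have h3 : (((⌊w * T - a⌋ + 1 - ⌈-b⌉).toNat : ℕ) : ℤ) = ⌊w * T - a⌋ + 1 - ⌈-b⌉ :=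
          Int.toNat_of_nonneg h
        exact_mod_cast h3
      rw [h2]
      push_cast
      have h4 := Int.floor_le (w * T - a)
      have h5 := Int.le_ceil (-b)
      linarith
    · rw [Int.toNat_of_nonpos h]
      have : 0 ≤ w * T := mul_nonneg hw.le hT
      push_cast
      linarith
  calc (((⌊w * T - a⌋ + 1 - ⌈-b⌉).toNat : ℕ) : ℝ) * ((b - a) / w)
      ≤ (w * T + (b - a) + 1) * ((b - a) / w) := by
        apply mul_le_mul_of_nonneg_right hcard
        exact div_nonneg (by linarith) hw.le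
    _ = (b - a) * T + (b - a) * (b - a + 1) / w := by
        field_simp
        ring

theorem int_ind {a b T : ℝ} (ha : 0 ≤ a) (hb : b ≤ T) :
    ∫ t in Set.Icc 0 T, (Set.Ioo a b).indicator (fun _ => (1 : ℝ)) t = max (b - a) 0 := by
  have h := integral_indicator_one (μ := volume.restrict (Set.Icc 0 T)) (s := Set.Ioo a b)
    measurableSet_Ioo
  have h2 : (volume.restrict (Set.Icc 0 T)).real (Set.Ioo a b) = max (b - a) 0 := by
    rw [measureReal_restrict_apply measurableSet_Ioo,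
      Set.inter_eq_self_of_subset_left, Real.volume_real_Ioo]
    intro t ht
    exact ⟨ha.trans ht.1.le, ht.2.le.trans hb⟩
  rw [← h2, ← h]
  rfl

end Pool.WLR
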