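import Pool.Agent.WLR.Point

set_option autoImplicit false

namespace Pool.WLR

open MeasureTheory

variable {ι : Type*} [Fintype ι] [DecidableEq ι]

theorem integrable_ind (T : ℝ) {s : Set ℝ} (hs : MeasurableSet s) :
    Integrable (s.indicator (fun _ => (1 : ℝ))) (volume.restrict (Set.Icc 0 T)) :=
  (integrable_const (1 : ℝ)).indicator hs

omit [Fintype ι] [DecidableEq ι] in
theorem integrable_g (u : ι → ℝ) (δ : ℝ) (M : ι → ℤ → ι) (K : ι → ℤ → ℤ)
    (j : ι) (k : ℤ) (T : ℝ) :
    Integrable (g u δ M K j k) (volume.restrict (Set.Icc 0 T)) := by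
  unfold g
  exact ((integrable_ind T measurableSet_Ioo).const_mul _).add
    ((integrable_ind T measurableSet_Ioo).const_mul _)

omit [Fintype ι] [DecidableEq ι] in
theorem integral_g {u : ι → ℝ} (hu0 : ∀ j, 0 < u j) (hu1 : ∀ j, u j ≤ 1)
    (δ : ℝ) (hδ0 : 0 < δ) (hδ : 2 * δ < 1) (M : ι → ℤ → ι) (K : ι → ℤ → ℤ)
    (hM0 : ∀ j (k : ℤ), 0 < (k + δ) / u j * u (M j k) - K j k)
    (hM : ∀ j (k : ℤ), (k + δ) / u j * u (M j k) - K j k < 2 * δ)
    (T : ℝ) (j : ι) (k : ℤ) (hk : 1 ≤ k) (hkT : (k + δ) / u j ≤ T) :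
    phi (u j) * (2 * δ / u j) ≤ ∫ t in Set.Icc 0 T, g u δ M K j k t := by
  have hk' : (1 : ℝ) ≤ k := by exact_mod_cast hk
  have ha : 0 ≤ ((k : ℝ) - δ) / u j := div_nonneg (by linarith) (hu0 j).le
  have h1 : ∫ t in Set.Icc 0 T, g u δ M K j k t =
      (if (k + δ) / u j * u (M j k) - K j k < δ then (3 : ℝ) else 2) *
        max (min ((k + δ) / u j) ((K j k + δ) / u (M j k)) -
          max ((k - δ) / u j) ((K j k - δ) / u (M j k))) 0
      + psi (u (M j k)) *
        max ((k + δ) / u j - max ((k - δ) / u j) ((K j k + δ) / u (M j k))) 0 := by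
    unfold g
    rw [integral_add ((integrable_ind T measurableSet_Ioo).const_mul _)
      ((integrable_ind T measurableSet_Ioo).const_mul _), integral_const_mul,
      integral_const_mul, int_ind (ha.trans (le_max_left _ _)) ((min_le_left _ _).trans hkT),
      int_ind (ha.trans (le_max_left _ _)) hkT]
  rw [h1]
  have huj := hu0 j
  have hw := hu0 (M j k)
  have h2 := charge_total (u j) (u (M j k)) δ ((k + δ) / u j * u (M j k) - K j k)
    ((k + δ) / u j) huj (hu1 j) hw (hu1 _) hδ0 (hM0 j k) (hM j k)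
  have e1 : (k + δ) / u j - 2 * δ / u j = (k - δ) / u j := by field_simp; ring
  have e2 : (k + δ) / u j - ((k + δ) / u j * u (M j k) - K j k - δ) / u (M j k)
      = (K j k + δ) / u (M j k) := by field_simp; ring
  have e3 : (k + δ) / u j - ((k + δ) / u j * u (M j k) - K j k + δ) / u (M j k)
      = (K j k - δ) / u (M j k) := by field_simp; ring
  rw [e1, e2, e3] at h2
  exact h2

theorem integrated {u : ι → ℝ} (hu0 : ∀ j, 0 < u j) (hu1 : ∀ j, u j ≤ 1)
    (δ : ℝ) (hδ0 : 0 < δ) (hδ : 2 * δ < 1) (M : ι → ℤ → ι) (K : ι → ℤ → ℤ)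
    (hne : ∀ j k, M j k ≠ j)
    (hM0 : ∀ j (k : ℤ), 0 < (k + δ) / u j * u (M j k) - K j k)
    (hM : ∀ j (k : ℤ), (k + δ) / u j * u (M j k) - K j k < 2 * δ)
    (H1 : ∀ t : ℝ, ∃ j, ∃ k : ℤ, |t * u j - k| < δ) (T : ℝ) (hT : 0 ≤ T) :
    ∑ j, (u j * T - δ - 1) * (phi (u j) * (2 * δ / u j)) ≤
      5 * ((∑ j, (2 * δ * T + 2 * δ * (2 * δ + 1) / u j)) - T)
        + ∑ m, psi (u m) * (δ * T + δ * (δ + 1) / u m) := by
  set μ : Measure ℝ := volume.restrict (Set.Icc 0 T) with hμ
  -- the total charge function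
  have hF : ∀ t : ℝ, ∑ j, ∑ k ∈ Finset.Icc (1 : ℤ) ⌊u j * T - δ⌋, g u δ M K j k t ≤
      5 * ((∑ j, (X (u j) (-δ) δ).indicator (fun _ => (1 : ℝ)) t) - 1)
        + ∑ m, psi (u m) * (X (u m) δ (2 * δ)).indicator (fun _ => (1 : ℝ)) t := by
    intro t
    refine le_trans (Finset.sum_le_sum fun j _ => ?_)
      (pointwise hu0 hu1 δ hδ0 hδ M K hne hM t (H1 t))
    by_cases hr : round (t * u j) ∈ Finset.Icc (1 : ℤ) ⌊u j * T - δ⌋
    · rw [Finset.sum_eq_single_of_mem _ hr]
      intro k _ hk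
      apply g_eq_zero hu0
      intro hcon
      exact hk (round_of_lt hδ k hcon).symm
    · rw [Finset.sum_eq_zero]
      · exact g_nonneg hu1 δ M K j _ t
      · intro k hk
        apply g_eq_zero hu0
        intro hcon
        apply hr
        rw [round_of_lt hδ k hcon]
        exact hk
  have hintL : Integrable (fun t => ∑ j, ∑ k ∈ Finset.Icc (1 : ℤ) ⌊u j * T - δ⌋,
      g u δ M K j k t) μ :=
    integrable_finsetSum _ fun j _ => integrable_finsetSum _ fun k _ =>
      integrable_g u δ M K j k T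
  have hi1 : Integrable (fun t => 5 * ((∑ j, (X (u j) (-δ) δ).indicator
      (fun _ => (1 : ℝ)) t) - 1)) μ :=
    ((integrable_finsetSum _ fun j _ => integrable_ind T (measurableSet_X _ _ _)).sub
      (integrable_const _)).const_mul _
  have hi2 : Integrable (fun t => ∑ m, psi (u m) *
      (X (u m) δ (2 * δ)).indicator (fun _ => (1 : ℝ)) t) μ :=
    integrable_finsetSum _ fun j _ => (integrable_ind T (measurableSet_X _ _ _)).const_mul _
  have hmono := integral_mono hintL (hi1.add hi2) hF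
  -- lower bound for the left side
  have hL : ∑ j, (u j * T - δ - 1) * (phi (u j) * (2 * δ / u j)) ≤
      ∫ t, ∑ j, ∑ k ∈ Finset.Icc (1 : ℤ) ⌊u j * T - δ⌋, g u δ M K j k t ∂μ := by
    rw [integral_finsetSum _ (fun j _ => integrable_finsetSum _ fun k _ =>
      integrable_g u δ M K j k T)]
    apply Finset.sum_le_sum
    intro j _
    rw [integral_finsetSum _ (fun k _ => integrable_g u δ M K j k T)]
    have hpos : 0 ≤ phi (u j) * (2 * δ / u j) :=
      mul_nonneg (phi_nonneg (hu0 j).le) (div_nonneg (by linarith) (hu0 j).le)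
    calc (u j * T - δ - 1) * (phi (u j) * (2 * δ / u j))
        ≤ ((Finset.Icc (1 : ℤ) ⌊u j * T - δ⌋).card : ℝ) * (phi (u j) * (2 * δ / u j)) := by
          apply mul_le_mul_of_nonneg_right _ hpos
          rw [Int.card_Icc]
          have h1 : (⌊u j * T - δ⌋ : ℤ) ≤ ((⌊u j * T - δ⌋ + 1 - 1).toNat : ℤ) := by
            have := Int.self_le_toNat (⌊u j * T - δ⌋ + 1 - 1)
            linarith
          have h2 : ((⌊u j * T - δ⌋ : ℤ) : ℝ) ≤ (((⌊u j * T - δ⌋ + 1 - 1).toNat : ℕ) : ℝ) := by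
            exact_mod_cast h1
          have h3 := Int.lt_floor_add_one (u j * T - δ)
          linarith
      _ = ∑ k ∈ Finset.Icc (1 : ℤ) ⌊u j * T - δ⌋, (phi (u j) * (2 * δ / u j)) := by
          rw [Finset.sum_const, nsmul_eq_mul]
      _ ≤ ∑ k ∈ Finset.Icc (1 : ℤ) ⌊u j * T - δ⌋, ∫ t, g u δ M K j k t ∂μ := by
          apply Finset.sum_le_sum
          intro k hk
          rw [Finset.mem_Icc, Int.le_floor] at hk
          apply integral_g hu0 hu1 δ hδ0 hδ M K hM0 hM T j k hk.1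
          rw [div_le_iff₀ (hu0 j)]
          linarith [hk.2]
  -- upper bound for the right side
  have hR : (∫ t, (5 * ((∑ j, (X (u j) (-δ) δ).indicator (fun _ => (1 : ℝ)) t) - 1)
        + ∑ m, psi (u m) * (X (u m) δ (2 * δ)).indicator (fun _ => (1 : ℝ)) t) ∂μ) ≤
      5 * ((∑ j, (2 * δ * T + 2 * δ * (2 * δ + 1) / u j)) - T)
        + ∑ m, psi (u m) * (δ * T + δ * (δ + 1) / u m) := by
    have hone : ∀ s : Set ℝ, MeasurableSet s → ∫ t, s.indicator (fun _ => (1 : ℝ)) t ∂μ
        = μ.real s := by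
      intro s hs
      rw [← integral_indicator_one hs]
      rfl
    have hμ1 : μ.real Set.univ = T := by
      rw [hμ, measureReal_restrict_apply MeasurableSet.univ, Set.univ_inter,
        Real.volume_real_Icc_of_le hT, sub_zero]
    rw [integral_add hi1 hi2, integral_const_mul, integral_sub
      (integrable_finsetSum _ fun j _ => integrable_ind T (measurableSet_X _ _ _))
      (integrable_const _), integral_finsetSum _ (fun j _ => integrable_ind T
      (measurableSet_X _ _ _)), integral_finsetSum _ (fun j _ => (integrable_ind T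
      (measurableSet_X _ _ _)).const_mul _)]
    have hA : ∑ j, ∫ t, (X (u j) (-δ) δ).indicator (fun _ => (1 : ℝ)) t ∂μ ≤
        ∑ j, (2 * δ * T + 2 * δ * (2 * δ + 1) / u j) := by
      apply Finset.sum_le_sum
      intro j _
      rw [hone _ (measurableSet_X _ _ _)]
      have := vol_bound (u j) (-δ) δ T (hu0 j) (by linarith) hT
      refine this.trans (le_of_eq ?_)
      ring
    have hB : ∑ m, ∫ t, psi (u m) * (X (u m) δ (2 * δ)).indicator (fun _ => (1 : ℝ)) t ∂μ ≤
        ∑ m, psi (u m) * (δ * T + δ * (δ + 1) / u m) := by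
      apply Finset.sum_le_sum
      intro m _
      rw [integral_const_mul, hone _ (measurableSet_X _ _ _)]
      apply mul_le_mul_of_nonneg_left _ (psi_nonneg (hu1 _))
      have := vol_bound (u m) δ (2 * δ) T (hu0 m) (by linarith) hT
      refine this.trans (le_of_eq ?_)
      ring
    have hC : ∫ _t : ℝ, (1 : ℝ) ∂μ = T := by
      rw [integral_const, hμ1]
      simp
    rw [hC]
    linarith
  exact hL.trans (hmono.trans hR)

/-- The core inequality. -/
theorem core {u : ι → ℝ} (hu0 : ∀ j, 0 < u j) (hu1 : ∀ j, u j ≤ 1)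
    (δ : ℝ) (hδ0 : 0 < δ) (hδ : 2 * δ < 1)
    (H1 : ∀ t : ℝ, ∃ j, ∃ k : ℤ, |t * u j - k| < δ)
    (H2 : ∀ j (k : ℤ), ∃ m, m ≠ j ∧ ∃ k' : ℤ, 0 < (k + δ) / u j * u m - k' ∧
      (k + δ) / u j * u m - k' < 2 * δ) :
    δ * ∑ j, (2 * phi (u j) - psi (u j)) ≤ 5 * (2 * δ * (Fintype.card ι) - 1) := by
  choose M hne K hM0 hM using H2
  by_contra hcon
  push Not at hcon
  -- collect the error terms
  set C : ℝ := ∑ j, (δ + 1) * (phi (u j) * (2 * δ / u j))
    + 5 * ∑ j, 2 * δ * (2 * δ + 1) / u j + ∑ m, psi (u m) * (δ * (δ + 1) / u m) with hC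
  have hC0 : 0 ≤ C := by
    have h1 : 0 ≤ ∑ j, (δ + 1) * (phi (u j) * (2 * δ / u j)) := by
      apply Finset.sum_nonneg
      intro j _
      have := hu0 j
      have := phi_nonneg (hu0 j).le
      positivity
    have h2 : 0 ≤ ∑ j, 2 * δ * (2 * δ + 1) / u j := by
      apply Finset.sum_nonneg
      intro j _
      have := hu0 j
      positivity
    have h3 : 0 ≤ ∑ m, psi (u m) * (δ * (δ + 1) / u m) := by
      apply Finset.sum_nonneg
      intro j _
      have := hu0 j
      have := psi_nonneg (hu1 j)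
      positivity
    rw [hC]
    linarith
  set G : ℝ := δ * ∑ j, (2 * phi (u j) - psi (u j))
    - 5 * (2 * δ * (Fintype.card ι) - 1) with hG
  have hGpos : 0 < G := by rw [hG]; linarith
  have key : ∀ T : ℝ, 0 ≤ T → G * T ≤ C := by
    intro T hT
    have h := integrated hu0 hu1 δ hδ0 hδ M K hne hM0 hM H1 T hT
    have e1 : ∑ j, (u j * T - δ - 1) * (phi (u j) * (2 * δ / u j))
        = 2 * δ * T * ∑ j, phi (u j) - ∑ j, (δ + 1) * (phi (u j) * (2 * δ / u j)) := by
      rw [Finset.mul_sum, ← Finset.sum_sub_distrib]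
      apply Finset.sum_congr rfl
      intro j _
      have := (hu0 j).ne'
      field_simp
      ring
    have e2 : ∑ j, (2 * δ * T + 2 * δ * (2 * δ + 1) / u j)
        = 2 * δ * T * (Fintype.card ι) + ∑ j, 2 * δ * (2 * δ + 1) / u j := by
      rw [Finset.sum_add_distrib, Finset.sum_const, nsmul_eq_mul, Finset.card_univ]
      ring
    have e3 : ∑ m, psi (u m) * (δ * T + δ * (δ + 1) / u m)
        = δ * T * ∑ m, psi (u m) + ∑ m, psi (u m) * (δ * (δ + 1) / u m) := by
      rw [Finset.mul_sum, ← Finset.sum_add_distrib]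
      apply Finset.sum_congr rfl
      intro j _
      ring
    have e4 : ∑ j, (2 * phi (u j) - psi (u j)) = 2 * ∑ j, phi (u j) - ∑ j, psi (u j) := by
      rw [Finset.sum_sub_distrib, Finset.mul_sum]
    rw [e1, e2, e3] at h
    rw [hG, hC, e4]
    linarith
  have h := key ((C + 1) / G) (by positivity)
  rw [mul_div_cancel₀ _ hGpos.ne'] at h
  linarith

end Pool.WLR
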