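import Pool.Agent.WLR.Charge

set_option autoImplicit false

namespace Pool.WLR

open MeasureTheory

variable {ι : Type*}

/-- The charge that the exit of runner `j` at its `k`-th visit puts on the time `t`. -/
noncomputable def g (u : ι → ℝ) (δ : ℝ) (M : ι → ℤ → ι) (K : ι → ℤ → ℤ) (j : ι) (k : ℤ)
    (t : ℝ) : ℝ :=
  (if (k + δ) / u j * u (M j k) - K j k < δ then (3 : ℝ) else 2) *
    (Set.Ioo (max ((k - δ) / u j) ((K j k - δ) / u (M j k)))
      (min ((k + δ) / u j) ((K j k + δ) / u (M j k)))).indicator (fun _ => (1 : ℝ)) t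
  + psi (u (M j k)) *
    (Set.Ioo (max ((k - δ) / u j) ((K j k + δ) / u (M j k)))
      ((k + δ) / u j)).indicator (fun _ => (1 : ℝ)) t

theorem g_nonneg {u : ι → ℝ} (hu1 : ∀ j, u j ≤ 1) (δ : ℝ) (M : ι → ℤ → ι) (K : ι → ℤ → ℤ)
    (j : ι) (k : ℤ) (t : ℝ) : 0 ≤ g u δ M K j k t := by
  unfold g
  have h1 : 0 ≤ (if (k + δ) / u j * u (M j k) - K j k < δ then (3 : ℝ) else 2) := by
    split_ifs <;> norm_num
  have h2 : 0 ≤ psi (u (M j k)) := psi_nonneg (hu1 _)
  have h3 : ∀ s : Set ℝ, 0 ≤ s.indicator (fun _ => (1 : ℝ)) t := by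
    intro s
    exact Set.indicator_nonneg (fun _ _ => zero_le_one) _
  exact add_nonneg (mul_nonneg h1 (h3 _)) (mul_nonneg h2 (h3 _))

theorem window_iff {w δ t : ℝ} (hw : 0 < w) (k : ℤ) :
    ((k - δ) / w < t ∧ t < (k + δ) / w) ↔ |t * w - k| < δ := by
  rw [div_lt_iff₀ hw, lt_div_iff₀ hw, abs_lt]
  constructor
  · rintro ⟨h1, h2⟩; constructor <;> linarith
  · rintro ⟨h1, h2⟩; constructor <;> linarith

theorem g_eq_zero {u : ι → ℝ} (hu0 : ∀ j, 0 < u j) (δ : ℝ) (M : ι → ℤ → ι) (K : ι → ℤ → ℤ)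
    (j : ι) (k : ℤ) (t : ℝ) (h : ¬ |t * u j - k| < δ) : g u δ M K j k t = 0 := by
  rw [← window_iff (hu0 j)] at h
  unfold g
  rw [Set.indicator_of_notMem, Set.indicator_of_notMem]
  · ring
  · intro hmem
    apply h
    exact ⟨(le_max_left _ _).trans_lt hmem.1, hmem.2⟩
  · intro hmem
    apply h
    exact ⟨(le_max_left _ _).trans_lt hmem.1, hmem.2.trans_le (min_le_left _ _)⟩

/-- In its partner's window the charge is the constant `3` or `2`. -/
theorem g_in {u : ι → ℝ} (hu0 : ∀ j, 0 < u j)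
    (δ : ℝ) (M : ι → ℤ → ι) (K : ι → ℤ → ℤ)
    (j : ι) (k : ℤ) (t : ℝ) (h : |t * u (M j k) - K j k| < δ) :
    g u δ M K j k t ≤ (if (k + δ) / u j * u (M j k) - K j k < δ then (3 : ℝ) else 2) := by
  rw [← window_iff (hu0 _)] at h
  unfold g
  have h1 : 0 ≤ (if (k + δ) / u j * u (M j k) - K j k < δ then (3 : ℝ) else 2) := by
    split_ifs <;> norm_num
  rw [Set.indicator_of_notMem (s := Set.Ioo (max ((k - δ) / u j) ((K j k + δ) / u (M j k)))
      ((k + δ) / u j)), mul_zero, add_zero]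
  · apply mul_le_of_le_one_right h1
    apply Set.indicator_le_self' (f := fun _ => (1 : ℝ)) (fun _ _ => zero_le_one) |>.trans
    exact le_rfl
  · intro hmem
    have := (le_max_right _ _).trans_lt hmem.1
    linarith [h.2]

/-- Outside its partner's window the charge is at most the weight of a partner just gone. -/
theorem g_out {u : ι → ℝ} (hu0 : ∀ j, 0 < u j) (hu1 : ∀ j, u j ≤ 1)
    (δ : ℝ) (M : ι → ℤ → ι) (K : ι → ℤ → ℤ)
    (j : ι) (k : ℤ) (t : ℝ) (hM : (k + δ) / u j * u (M j k) - K j k < 2 * δ)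
    (h : ¬ |t * u (M j k) - K j k| < δ) :
    g u δ M K j k t ≤ psi (u (M j k)) *
      (X (u (M j k)) δ (2 * δ)).indicator (fun _ => (1 : ℝ)) t := by
  rw [← window_iff (hu0 _)] at h
  unfold g
  rw [Set.indicator_of_notMem (s := Set.Ioo (max ((k - δ) / u j) ((K j k - δ) / u (M j k)))
      (min ((k + δ) / u j) ((K j k + δ) / u (M j k)))), mul_zero, zero_add]
  · apply mul_le_mul_of_nonneg_left _ (psi_nonneg (hu1 _))
    apply Set.indicator_le_indicator_of_subset _ (fun _ => zero_le_one)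
    intro s hs
    have hw := hu0 (M j k)
    refine ⟨K j k, ?_, ?_⟩
    · have := (le_max_right _ _).trans_lt hs.1
      rw [div_lt_iff₀ hw] at this
      linarith
    · have h2 : s * u (M j k) < (k + δ) / u j * u (M j k) := mul_lt_mul_of_pos_right hs.2 hw
      linarith
  · intro hmem
    apply h
    exact ⟨(le_max_right _ _).trans_lt hmem.1, hmem.2.trans_le (min_le_right _ _)⟩

theorem g_le_three {u : ι → ℝ} (hu0 : ∀ j, 0 < u j) (hu1 : ∀ j, u j ≤ 1)
    (δ : ℝ) (M : ι → ℤ → ι) (K : ι → ℤ → ℤ)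
    (j : ι) (k : ℤ) (t : ℝ) (hM : (k + δ) / u j * u (M j k) - K j k < 2 * δ) :
    g u δ M K j k t ≤ 3 := by
  by_cases h : |t * u (M j k) - K j k| < δ
  · refine (g_in hu0 δ M K j k t h).trans ?_
    split_ifs <;> norm_num
  · refine (g_out hu0 hu1 δ M K j k t hM h).trans ?_
    have h1 : (X (u (M j k)) δ (2 * δ)).indicator (fun _ => (1 : ℝ)) t ≤ 1 :=
      Set.indicator_le_self' (f := fun _ => (1 : ℝ)) (fun _ _ => zero_le_one) t
    have h2 : 0 ≤ (X (u (M j k)) δ (2 * δ)).indicator (fun _ => (1 : ℝ)) t :=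
      Set.indicator_nonneg (fun _ _ => zero_le_one) _
    have h3 := psi_le_one (u (M j k))
    nlinarith

theorem round_of_lt {x δ : ℝ} (hδ : 2 * δ < 1) (k : ℤ) (h : |x - k| < δ) : round x = k := by
  rw [round_eq, Int.floor_eq_iff]
  rw [abs_lt] at h
  constructor <;> linarith [h.1, h.2]

variable [Fintype ι] [DecidableEq ι]

/-- The sum over all runners of the charges at a time `t`. -/
theorem pointwise {u : ι → ℝ} (hu0 : ∀ j, 0 < u j) (hu1 : ∀ j, u j ≤ 1)
    (δ : ℝ) (hδ0 : 0 < δ) (hδ : 2 * δ < 1) (M : ι → ℤ → ι) (K : ι → ℤ → ℤ)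
    (hne : ∀ j k, M j k ≠ j)
    (hM : ∀ j (k : ℤ), (k + δ) / u j * u (M j k) - K j k < 2 * δ)
    (t : ℝ) (H1 : ∃ j, ∃ k : ℤ, |t * u j - k| < δ) :
    ∑ j, g u δ M K j (round (t * u j)) t ≤
      5 * ((∑ j, (X (u j) (-δ) δ).indicator (fun _ => (1 : ℝ)) t) - 1)
        + ∑ m, psi (u m) * (X (u m) δ (2 * δ)).indicator (fun _ => (1 : ℝ)) t := by
  classical
  set S : Finset ι := Finset.univ.filter (fun j => |t * u j - round (t * u j)| < δ) with hS
  have hSne : S.Nonempty := by
    obtain ⟨j, k, h⟩ := H1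
    refine ⟨j, ?_⟩
    rw [hS, Finset.mem_filter]
    refine ⟨Finset.mem_univ _, ?_⟩
    rw [round_of_lt hδ k h]
    exact h
  -- membership from any window
  have hmemS : ∀ (m : ι) (k : ℤ), |t * u m - k| < δ → m ∈ S ∧ round (t * u m) = k := by
    intro m k h
    have h1 := round_of_lt hδ k h
    refine ⟨?_, h1⟩
    rw [hS, Finset.mem_filter]
    refine ⟨Finset.mem_univ _, ?_⟩
    rw [h1]
    exact h
  have hpsum : 0 ≤ ∑ m, psi (u m) * (X (u m) δ (2 * δ)).indicator (fun _ => (1 : ℝ)) t := by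
    apply Finset.sum_nonneg
    intro m _
    exact mul_nonneg (psi_nonneg (hu1 _)) (Set.indicator_nonneg (fun _ _ => zero_le_one) _)
  have hpsum' : ∀ m, psi (u m) * (X (u m) δ (2 * δ)).indicator (fun _ => (1 : ℝ)) t ≤
      ∑ m, psi (u m) * (X (u m) δ (2 * δ)).indicator (fun _ => (1 : ℝ)) t := by
    intro m
    apply Finset.single_le_sum (f := fun m => psi (u m) *
      (X (u m) δ (2 * δ)).indicator (fun _ => (1 : ℝ)) t) _ (Finset.mem_univ m)
    intro m _
    exact mul_nonneg (psi_nonneg (hu1 _)) (Set.indicator_nonneg (fun _ _ => zero_le_one) _)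
  have hcard : (S.card : ℝ) ≤ ∑ j, (X (u j) (-δ) δ).indicator (fun _ => (1 : ℝ)) t := by
    have h1 : (S.card : ℝ) = ∑ j ∈ S, (1 : ℝ) := by simp
    rw [h1]
    calc ∑ j ∈ S, (1 : ℝ) ≤ ∑ j ∈ S, (X (u j) (-δ) δ).indicator (fun _ => (1 : ℝ)) t := by
          apply Finset.sum_le_sum
          intro j hj
          rw [hS, Finset.mem_filter] at hj
          rw [Set.indicator_of_mem]
          have := abs_lt.1 hj.2
          exact ⟨round (t * u j), this.1.le, this.2.le⟩
      _ ≤ ∑ j, (X (u j) (-δ) δ).indicator (fun _ => (1 : ℝ)) t := by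
          apply Finset.sum_le_sum_of_subset_of_nonneg (Finset.subset_univ _)
          intro j _ _
          exact Set.indicator_nonneg (fun _ _ => zero_le_one) _
  -- only runners in `S` carry a charge
  have hsum : ∑ j, g u δ M K j (round (t * u j)) t
      = ∑ j ∈ S, g u δ M K j (round (t * u j)) t := by
    symm
    apply Finset.sum_subset (Finset.subset_univ _)
    intro j _ hj
    apply g_eq_zero hu0
    intro hcon
    apply hj
    rw [hS, Finset.mem_filter]
    exact ⟨Finset.mem_univ _, hcon⟩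
  rw [hsum]
  obtain ⟨js, hjs, hmax⟩ := Finset.exists_max_image S
    (fun j => ((round (t * u j) : ℤ) + δ) / u j) hSne
  rcases Nat.lt_or_ge 1 S.card with hc | hc
  · -- at least two runners
    have hg2 : g u δ M K js (round (t * u js)) t ≤ 2 := by
      by_cases h : |t * u (M js (round (t * u js))) - K js (round (t * u js))| < δ
      · refine (g_in hu0 δ M K js _ t h).trans ?_
        rw [if_neg]
        push Not
        obtain ⟨h1, h2⟩ := hmemS _ _ h
        have h3 := hmax _ h1
        simp only [h2] at h3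
        have hw := hu0 (M js (round (t * u js)))
        rw [div_le_iff₀ hw] at h3
        linarith
      · refine (g_out hu0 hu1 δ M K js _ t (hM _ _) h).trans ?_
        have h1 : (X (u (M js (round (t * u js)))) δ (2 * δ)).indicator (fun _ => (1 : ℝ)) t ≤ 1 :=
          Set.indicator_le_self' (f := fun _ => (1 : ℝ)) (fun _ _ => zero_le_one) t
        have h2 : 0 ≤ (X (u (M js (round (t * u js)))) δ (2 * δ)).indicator
            (fun _ => (1 : ℝ)) t :=
          Set.indicator_nonneg (fun _ _ => zero_le_one) _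
        have h3 := psi_le_one (u (M js (round (t * u js))))
        nlinarith
    have hrest : ∑ j ∈ S.erase js, g u δ M K j (round (t * u j)) t ≤ 3 * (S.card - 1) := by
      calc ∑ j ∈ S.erase js, g u δ M K j (round (t * u j)) t
          ≤ ∑ j ∈ S.erase js, (3 : ℝ) := by
            apply Finset.sum_le_sum
            intro j _
            exact g_le_three hu0 hu1 δ M K j _ t (hM _ _)
        _ = 3 * (S.card - 1) := by
            rw [Finset.sum_const, Finset.card_erase_of_mem hjs, nsmul_eq_mul,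
              Nat.cast_sub hSne.card_pos]
            push_cast
            ring
    rw [← Finset.add_sum_erase S _ hjs]
    have hc' : (2 : ℝ) ≤ S.card := by exact_mod_cast hc
    linarith
  · -- exactly one runner
    have hc1 : S.card = 1 := le_antisymm hc hSne.card_pos
    obtain ⟨j, hj⟩ := Finset.card_eq_one.1 hc1
    rw [hj, Finset.sum_singleton]
    have hnot : ¬ |t * u (M j (round (t * u j))) - K j (round (t * u j))| < δ := by
      intro h
      have h1 := (hmemS _ _ h).1
      rw [hj, Finset.mem_singleton] at h1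
      exact hne _ _ h1
    have h2 := g_out hu0 hu1 δ M K j _ t (hM _ _) hnot
    have h3 := hpsum' (M j (round (t * u j)))
    have h4 : (1 : ℝ) ≤ S.card := by rw [hc1]; norm_num
    linarith

end Pool.WLR
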