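import Pool.Agent.WLR.Integrate

set_option autoImplicit false

namespace Pool.WLR

/-- The core inequality seen from the fastest runner. -/
theorem top_bound (n : ℕ) (v : Fin n → ℝ) (δ D : ℝ) (hδ0 : 0 < δ) (hδ : 2 * δ < 1)
    (hD : 0 < D) (l : Fin n) (hl : ∀ j, j ≠ l → 0 < v l - v j) (hlD : ∀ j, v l - v j ≤ D)
    (hnl : ∀ (t : ℝ) (j : Fin n), ∃ i, i ≠ j ∧ ∃ k : ℤ, |t * (v i - v j) - k| < δ) :
    δ * ((∑ j, (2 * phi ((v l - v j) / D) - psi ((v l - v j) / D))) + 1) ≤
      5 * (2 * δ * ((n : ℝ) - 1) - 1) := by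
  classical
  have hn : 1 ≤ n := Nat.one_le_of_lt (Nat.lt_of_le_of_lt (Nat.zero_le _) l.isLt)
  have h := core (ι := {j : Fin n // j ≠ l}) (u := fun j => (v l - v j.1) / D)
    (fun j => div_pos (hl j.1 j.2) hD)
    (fun j => by rw [div_le_one hD]; exact hlD j.1) δ hδ0 hδ ?_ ?_
  · have hcard : (Fintype.card {j : Fin n // j ≠ l} : ℝ) = (n : ℝ) - 1 := by
      rw [Fintype.card_subtype_compl]
      simp [Nat.cast_sub hn]
    rw [hcard] at h
    have hsum : ∑ j : {j : Fin n // j ≠ l}, (2 * phi ((v l - v j.1) / D)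
        - psi ((v l - v j.1) / D)) =
        (∑ j, (2 * phi ((v l - v j) / D) - psi ((v l - v j) / D))) + 1 := by
      have h1 : ∑ j ∈ Finset.univ.erase l, (2 * phi ((v l - v j) / D) - psi ((v l - v j) / D))
          = ∑ j : {j : Fin n // j ≠ l}, (2 * phi ((v l - v j.1) / D)
            - psi ((v l - v j.1) / D)) :=
        Finset.sum_subtype (Finset.univ.erase l) (p := fun j => j ≠ l)
          (fun j => by simp) (fun j => 2 * phi ((v l - v j) / D) - psi ((v l - v j) / D))
      rw [← h1, Finset.sum_erase_eq_sub (Finset.mem_univ l)]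
      have h2 : 2 * phi ((v l - v l) / D) - psi ((v l - v l) / D) = -1 := by
        unfold phi psi
        simp
      rw [h2]
      ring
    rw [hsum] at h
    exact h
  · intro t
    obtain ⟨i, hi, k, hk⟩ := hnl (t / D) l
    refine ⟨⟨i, hi⟩, -k, ?_⟩
    have : t * ((v l - v i) / D) - ((-k : ℤ) : ℝ) = -(t / D * (v i - v l) - k) := by
      push_cast
      field_simp
      ring
    simp only
    rw [this, abs_neg]
    exact hk
  · rintro ⟨j, hj⟩ k
    simp only
    set e : ℝ := (k + δ) / ((v l - v j) / D) with he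
    have hvj := hl j hj
    have heu : e / D * (v l - v j) = k + δ := by
      rw [he]
      field_simp
    obtain ⟨i, hi, k1, hk1⟩ := hnl (e / D) j
    have hil : i ≠ l := by
      rintro rfl
      rw [heu, abs_lt] at hk1
      have h1 : ((k - k1 : ℤ) : ℝ) < ((0 : ℤ) : ℝ) := by push_cast; linarith [hk1.2]
      have h2 : ((-1 : ℤ) : ℝ) < ((k - k1 : ℤ) : ℝ) := by push_cast; linarith [hk1.1]
      have h3 := Int.cast_lt.1 h1
      have h4 := Int.cast_lt.1 h2
      omega
    refine ⟨⟨i, hil⟩, ?_, k - k1, ?_⟩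
    · intro hcon
      exact hi (congrArg Subtype.val hcon)
    · have h1 : e * ((v l - v i) / D) = k + δ - e / D * (v i - v j) := by
        rw [← heu]
        ring
      rw [abs_lt] at hk1
      simp only
      rw [h1]
      push_cast
      constructor <;> linarith [hk1.1, hk1.2]

theorem pair_bound {x : ℝ} (h0 : 0 ≤ x) (h1 : x ≤ 1) :
    1 ≤ (2 * phi x - psi x) + (2 * phi (1 - x) - psi (1 - x)) := by
  unfold phi psi
  rcases min_cases (1 : ℝ) (3 * x / 2) with ⟨e1, _⟩ | ⟨e1, _⟩ <;>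
  rcases min_cases (1 : ℝ) (2 - 2 * x) with ⟨e2, _⟩ | ⟨e2, _⟩ <;>
  rcases min_cases (1 : ℝ) (3 * (1 - x) / 2) with ⟨e3, _⟩ | ⟨e3, _⟩ <;>
  rcases min_cases (1 : ℝ) (2 - 2 * (1 - x)) with ⟨e4, _⟩ | ⟨e4, _⟩ <;>
  rw [e1, e2, e3, e4] <;> linarith

/-- Some runner is lonely at distance `δ`, as soon as `δ (19 n - 22) < 10`. -/
theorem weak_lonely (n : ℕ) (hn : 3 ≤ n) (v : Fin n → ℝ) (hv : Function.Injective v) (δ : ℝ)
    (hδn : δ * (19 * (n : ℝ) - 22) < 10) :
    ∃ t : ℝ, ∃ j : Fin n, ∀ i : Fin n, i ≠ j →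
      δ ≤ |t * (v i - v j) - (round (t * (v i - v j)) : ℝ)| := by
  have hn' : (3 : ℝ) ≤ n := by exact_mod_cast hn
  have : NeZero n := ⟨by omega⟩
  rcases le_or_gt δ 0 with hδ0 | hδ0
  · exact ⟨0, 0, fun i _ => hδ0.trans (abs_nonneg _)⟩
  have hδ : 2 * δ < 1 := by nlinarith
  by_contra hcon
  push Not at hcon
  have hnl : ∀ (t : ℝ) (j : Fin n), ∃ i, i ≠ j ∧ ∃ k : ℤ, |t * (v i - v j) - k| < δ := by
    intro t j
    obtain ⟨i, hi, h⟩ := hcon t j
    exact ⟨i, hi, _, h⟩
  obtain ⟨l, -, hl⟩ := Finset.exists_max_image Finset.univ v Finset.univ_nonempty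
  obtain ⟨b, -, hb⟩ := Finset.exists_min_image Finset.univ v Finset.univ_nonempty
  have hl' : ∀ j, j ≠ l → 0 < v l - v j := by
    intro j hj
    have h1 := hl j (Finset.mem_univ _)
    have h2 : v j ≠ v l := fun h => hj (hv h)
    have := lt_of_le_of_ne h1 h2
    linarith
  have hb' : ∀ j, j ≠ b → 0 < v j - v b := by
    intro j hj
    have h1 := hb j (Finset.mem_univ _)
    have h2 : v b ≠ v j := fun h => hj (hv h).symm
    have := lt_of_le_of_ne h1 h2
    linarith
  have hbl : b ≠ l := by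
    intro h
    -- all speeds would be equal
    have h01 : (⟨0, by omega⟩ : Fin n) ≠ ⟨1, by omega⟩ := by
      intro hc
      have := congrArg Fin.val hc
      simp at this
    apply h01
    apply hv
    have a1 := hl ⟨0, by omega⟩ (Finset.mem_univ _)
    have a2 := hb ⟨0, by omega⟩ (Finset.mem_univ _)
    have a3 := hl ⟨1, by omega⟩ (Finset.mem_univ _)
    have a4 := hb ⟨1, by omega⟩ (Finset.mem_univ _)
    rw [h] at a2 a4
    linarith
  set D : ℝ := v l - v b with hD
  have hDpos : 0 < D := hl' b hbl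
  have hT := top_bound n v δ D hδ0 hδ hDpos l hl'
    (fun j => by have := hb j (Finset.mem_univ _); linarith) hnl
  have hB := top_bound n (fun j => -v j) δ D hδ0 hδ hDpos b
    (fun j hj => by have := hb' j hj; linarith)
    (fun j => by have := hl j (Finset.mem_univ _); linarith)
    (fun t j => by
      obtain ⟨i, hi, k, hk⟩ := hnl t j
      refine ⟨i, hi, -k, ?_⟩
      have : t * (-v i - -v j) - ((-k : ℤ) : ℝ) = -(t * (v i - v j) - k) := by
        push_cast; ring
      rw [this, abs_neg]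
      exact hk)
  have hsum : (n : ℝ) ≤ (∑ j, (2 * phi ((v l - v j) / D) - psi ((v l - v j) / D)))
      + ∑ j, (2 * phi ((-v b - -v j) / D) - psi ((-v b - -v j) / D)) := by
    rw [← Finset.sum_add_distrib]
    have h1 : (n : ℝ) = ∑ _j : Fin n, (1 : ℝ) := by simp
    rw [h1]
    apply Finset.sum_le_sum
    intro j _
    have hj0 : 0 ≤ (v l - v j) / D :=
      div_nonneg (by have := hl j (Finset.mem_univ _); linarith) hDpos.le
    have hj1 : (v l - v j) / D ≤ 1 := by
      rw [div_le_one hDpos]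
      have := hb j (Finset.mem_univ _)
      linarith
    have hx : (-v b - -v j) / D = 1 - (v l - v j) / D := by
      field_simp
      rw [hD]
      ring
    rw [hx]
    exact pair_bound hj0 hj1
  nlinarith

end Pool.WLR
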